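import Pool.Agent.H43.Fc2

set_option autoImplicit false

namespace Pool.Agent.Results.MP_ba6fcf_pr.InfMean

open MeasureTheory ProbabilityTheory Set Pool.Agent.H43.Fd Pool.Agent.H43.Fc
open scoped ENNReal

/-- the value at the origin is determined by the labels in `[-r, r]` -/
def Det {L S : Type} (F : (ℤ → L) → ℤ → S) (y : ℤ → L) (r : ℕ) : Prop :=
  ∀ y' : ℤ → L, (∀ j : ℤ, |j| ≤ r → y' j = y j) → F y' 0 = F y 0

/-- coding radius -/
noncomputable def R {L S : Type} (F : (ℤ → L) → ℤ → S) (y : ℤ → L) : ℝ≥0∞ :=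
  ⨅ (r : ℕ) (_ : Det F y r), (r : ℝ≥0∞)

theorem result : ∃ (S : Type) (_ : MeasurableSpace S) (_ : StandardBorelSpace S)
    (μ : Measure (ℤ → S)), IsProbabilityMeasure μ ∧
    (∀ a : ℤ, μ.map (fun z v => z (v + a)) = μ) ∧
    (∀ A B : Set ℤ, (∀ a ∈ A, ∀ b ∈ B, 1 < |a - b|) →
      IndepFun (fun (z : ℤ → S) (a : A) => z a) (fun (z : ℤ → S) (b : B) => z b) μ) ∧
    ∀ (L : Type) [MeasurableSpace L] (ν : Measure L) [IsProbabilityMeasure ν]
      (F : (ℤ → L) → ℤ → S), Measurable F → (Measure.infinitePi fun _ : ℤ => ν).map F = μ →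
      (∀ a : ℤ, ∀ᵐ y ∂(Measure.infinitePi fun _ : ℤ => ν),
        F (fun v => y (v + a)) = fun v => F y (v + a)) →
      ∫⁻ y, R F y ∂(Measure.infinitePi fun _ : ℤ => ν) = ∞ := by
  classical
  have sb : StandardBorelSpace SS := @StandardBorelSpace.prod _ _ _ _ _
    (@StandardBorelSpace.pi_countable ℕ _ (fun _ => TT × TT) _ fun _ => StandardBorelSpace.prod)
  refine ⟨SS, inferInstance, sb, mu, inferInstance, stat, dep1,
    fun L _ ν _ F mF hF he => ?_⟩
  obtain ⟨l⟩ := nonempty_of_isProbabilityMeasure ν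
  have m0 : Measurable fun y => F y 0 := (measurable_pi_apply 0).comp mF
  choose G mG dG sG aG using fun r : ℕ => localize ν (Icc (-r : ℤ) r) m0 fun _ => l
  have b : ∀ r : ℕ, ENNReal.ofReal (1 / (4000 * (r + 1))) ≤ PP ν ℤ (G r)ᶜ := fun r => by
    refine bell ν ⟨mF, hF⟩ r (f := fun y => F ((Icc (-r : ℤ) r).piecewise y fun _ => l) 0) (dG r)
      (fun y y' h => ?_) (ae_all_iff.2 fun i => ?_)
    · simp only []
      congr 1
      funext i
      by_cases hi : i ∈ Icc (-r : ℤ) r
      · rw [piecewise_eq_of_mem _ _ _ hi, piecewise_eq_of_mem _ _ _ hi, h i hi]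
      · rw [piecewise_eq_of_notMem _ _ _ hi, piecewise_eq_of_notMem _ _ _ hi]
    · filter_upwards [(inj_mp ν (add_left_injective i)).quasiMeasurePreserving.ae (aG r), he i]
        with y h1 h2 h3
      rw [h1 h3, h2]
      simp
  have le : ∀ y, ∑' r, (G r)ᶜ.indicator 1 y ≤ R F y := fun y => le_iInf₂ fun r hr => by
    rw [tsum_eq_sum (s := Finset.range r) fun s hs => indicator_of_notMem (not_not.2 (sG s
      fun y' h => hr y' fun j hj => h j (abs_le.1 (hj.trans (by simpa using hs))))) _]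
    refine (Finset.sum_le_card_nsmul _ _ 1 fun s _ => indicator_le_self _ _ y).trans (by simp)
  refine top_le_iff.1 (le_trans ?_ (lintegral_mono le))
  rw [lintegral_tsum fun r => (measurable_one.indicator (mG r).compl).aemeasurable]
  simp only [lintegral_indicator_one (mG _).compl]
  refine le_trans (top_le_iff.2 ?_) (ENNReal.tsum_le_tsum b)
  by_contra c
  have := (ENNReal.summable_toReal c).mul_left 4000
  refine Real.not_summable_one_div_natCast ((summable_nat_add_iff 1).1 (this.congr fun r => ?_))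
  rw [ENNReal.toReal_ofReal (by positivity)]
  push_cast
  field_simp

end Pool.Agent.Results.MP_ba6fcf_pr.InfMean
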